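import Pool.Agent.N853.PQ.Final

/-!
# MP_7624a3_nt: partially `p`-periodic polynomial sequences on quadrics need not extend

Negative answer to Q1, for all `d ≥ 3`, all `s ≥ 3` and all odd primes `p`, with a nondegenerate
quadratic form `M (n) = 2 n_0 n_1 + n_2 ^ 2 + ⋯ + n_{d-1} ^ 2` of rank `d`.

**The example.** `G` is the Heisenberg group of dimension `2 d - 1`, the set of the `(x, y, z)`,
`x, y ∈ ℝ^(d-1)`, `z ∈ ℝ`, with the multiplication
`(x, y, z) (x', y', z') = (x + x', y + y', z + z' + x · y')`, `Γ` is the subgroup of its integral points,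
and the filtration is `G_0 = G_1 = G`, `G_2 = {x = 0}`, `G_3 = {x = y = 0}`, `G_4 = {id}`. With
`C (n) = n_0 ^ 2 n_1 + n_0 (n_2 ^ 2 + ⋯)`, so that `∂_0 C = M`, the sequence is
`f (n) = ((n_j / p)_j, (∂_j C (n) / p)_j, (2 C (n) - n_0 M (n)) / p ^ 2)`, `j ≥ 1`. Then the last
coordinate of `f (n + p m)⁻¹ f (n)` is `m_0 M (n) / p` modulo integers.

**No extension.** Suppose that a `p`-periodic `f' = (x', y', z')` agrees with `f` modulo `Γ` on
`V (M)`, which contains `0`, `e_0`, `2 e_0` and `e_1`. The third difference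
`D_{e_0} D_{e_0} D_{p e_1} z'` is an integer, and the third difference
`D_{e_0} D_{e_1} D_{p e_0} z'` is `y'_1 (2 e_0) - 2 y'_1 (e_0) + y'_1 (0) = 2 / p` modulo integers, but
these two are equal since `z'` has degree at most three.
-/

set_option autoImplicit false

namespace Pool.Agent.Results.MP_7624a3_nt.NoPeriodicExtension

open Pool.Agent.N853.PQ (FilteredNilmanifold polyP zeroSet)

/-- For all `d ≥ 3`, `s ≥ 3` and all odd primes `p` there are a nondegenerate quadratic form
`M (n) = n A · n` on `F_p^d`, an `s`-step filtered nilmanifold `G / Γ` and a partially `p`-periodic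
polynomial sequence `g` in `poly_p (V (M) → G | Γ)` such that no `g'` in `poly_p (F_p^d → G | Γ)`
satisfies `g (n) Γ = g' (n) Γ` for all `n ∈ V (M)`. -/
theorem result (d s : ℕ) (hd : 3 ≤ d) (hs : 3 ≤ s) (p : ℕ) (hp : p.Prime) (hp2 : p ≠ 2) :
    ∃ A : Matrix (Fin d) (Fin d) (ZMod p), A.IsSymm ∧ A.rank = d ∧
      ∃ X : FilteredNilmanifold s, ∃ g ∈ polyP X (zeroSet A 0 0),
        ¬ ∃ g' ∈ polyP X (Set.univ : Set (Fin d → ZMod p)), ∀ n ∈ zeroSet A 0 0,
          (QuotientGroup.mk (g n) : X.G ⧸ X.Γ) = QuotientGroup.mk (g' n) := by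
  obtain ⟨r, rfl⟩ : ∃ r, d = r + 2 := ⟨d - 2, by omega⟩
  exact Pool.Agent.N853.PQ.main r s p hs hp hp2

end Pool.Agent.Results.MP_7624a3_nt.NoPeriodicExtension
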